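import Pool.Agent.H59.LIN.Targets

/-!
# Realizing weight systems over rings by Vassiliev invariants (`MP_559314_gt`): row NCL
-/

set_option autoImplicit false

namespace Pool.Agent.H66.LIN

open Pool.Agent.H59.LIN

theorem mk_f {α : Type} (f : α → α) (x : α) :
    Quot.mk (fun x y => y = f x) (f x) = Quot.mk (fun x y => y = f x) x :=
  (Quot.sound (r := fun x y => y = f x) (a := x) (b := f x) rfl).symm

theorem quot_card {A B : Type} (r : A → A → Prop) (s : B → B → Prop) (i : A → B) (ρ : B → A)
    (hi : ∀ a a', r a a' → Quot.mk s (i a) = Quot.mk s (i a'))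
    (hρ : ∀ b b', s b b' → Quot.mk r (ρ b) = Quot.mk r (ρ b'))
    (h1 : ∀ a, Quot.mk r (ρ (i a)) = Quot.mk r a)
    (h2 : ∀ b, Quot.mk s (i (ρ b)) = Quot.mk s b) :
    Nat.card (Quot r) = Nat.card (Quot s) := by
  refine Nat.card_congr
    { toFun := Quot.lift (fun a => Quot.mk s (i a)) hi
      invFun := Quot.lift (fun b => Quot.mk r (ρ b)) hρ
      left_inv := ?_
      right_inv := ?_ }
  · intro x
    induction x using Quot.ind with
    | mk a => exact h1 a
  · intro x
    induction x using Quot.ind with
    | mk b => exact h2 b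

theorem run_append {n : ℕ} {α : Type} (u v : List (Fin n × α)) (p : Fin (n + 1)) :
    run (u ++ v) p = run v (run u p) := by
  induction u generalizing p with
  | nil => rfl
  | cons x u ih => exact ih _

theorem tr_cast {n : ℕ} (i : Fin n) (p : Fin (n + 1)) :
    tr i.castSucc p.castSucc = (tr i p).castSucc := by
  unfold tr
  rw [Fin.succ_castSucc]
  exact (Fin.castSucc_injective _).swap_apply _ _ _

theorem tr_last {n : ℕ} (i : Fin n) :
    tr i.castSucc (Fin.last (n + 1)) = Fin.last (n + 1) := by
  unfold tr
  rw [Fin.succ_castSucc]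
  exact Equiv.swap_apply_of_ne_of_ne (Fin.castSucc_ne_last _).symm (Fin.castSucc_ne_last _).symm

theorem run_up {n : ℕ} (w : Wd n) (p : Fin (n + 1)) :
    run (up w) p.castSucc = (run w p).castSucc := by
  induction w generalizing p with
  | nil => rfl
  | cons x w ih =>
    change run (up w) (tr x.1.castSucc p.castSucc) = _
    rw [tr_cast]
    exact ih _

theorem run_up_last {n : ℕ} (w : Wd n) :
    run (up w) (Fin.last (n + 1)) = Fin.last (n + 1) := by
  induction w with
  | nil => rfl
  | cons x w ih =>
    change run (up w) (tr x.1.castSucc (Fin.last (n + 1))) = _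
    rw [tr_last]
    exact ih

theorem run_st {n : ℕ} (w : Wd n) (b : Bool) (p : Fin (n + 2)) :
    run (up w ++ [(Fin.last n, b)]) p = tr (Fin.last n) (run (up w) p) := by
  rw [run_append]
  rfl

theorem st_last {n : ℕ} (w : Wd n) (b : Bool) :
    run (up w ++ [(Fin.last n, b)]) (Fin.last (n + 1)) = (Fin.last n).castSucc := by
  rw [run_st, run_up_last]
  unfold tr
  exact Equiv.swap_apply_right _ _

theorem st_eq {n : ℕ} (w : Wd n) (b : Bool) (p : Fin (n + 1)) (h : run w p = Fin.last n) :
    run (up w ++ [(Fin.last n, b)]) p.castSucc = Fin.last (n + 1) := by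
  rw [run_st, run_up, h]
  unfold tr
  exact Equiv.swap_apply_left _ _

theorem st_ne {n : ℕ} (w : Wd n) (b : Bool) (p : Fin (n + 1)) (h : run w p ≠ Fin.last n) :
    run (up w ++ [(Fin.last n, b)]) p.castSucc = (run w p).castSucc := by
  rw [run_st, run_up]
  unfold tr
  refine Equiv.swap_apply_of_ne_of_ne ?_ ?_
  · exact fun h' => h (Fin.castSucc_injective _ h')
  · exact Fin.castSucc_ne_last _

theorem ncl_up {n : ℕ} (w : Wd n) : ncl (run (up w)) = ncl (run w) + 1 := by
  have hfin : Finite (Quot fun x y => y = run w x) := Finite.of_surjective _ Quot.mk_surjective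
  unfold ncl
  rw [← Finite.card_option]
  have hp : ∀ p : Fin (n + 1), (Fin.lastCases (motive := fun _ => Option
      (Quot fun x y => y = run w x)) none (fun p => some (Quot.mk _ p)) p.castSucc) =
      some (Quot.mk _ p) := fun p => Fin.lastCases_castSucc _
  have hl : (Fin.lastCases (motive := fun _ => Option
      (Quot fun x y => y = run w x)) none (fun p => some (Quot.mk _ p)) (Fin.last (n + 1))) =
      none := Fin.lastCases_last
  have hA : ∀ a b : Fin (n + 1), b = run w a →
      Quot.mk (fun x y => y = run (up w) x) a.castSucc = Quot.mk _ b.castSucc := by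
    intro a b h
    refine Quot.sound ?_
    rw [run_up, h]
  have hB : ∀ a b : Fin (n + 2), b = run (up w) a →
      (Fin.lastCases (motive := fun _ => Option
        (Quot fun x y => y = run w x)) none (fun p => some (Quot.mk _ p)) a) =
      (Fin.lastCases (motive := fun _ => Option
        (Quot fun x y => y = run w x)) none (fun p => some (Quot.mk _ p)) b) := by
    intro a b h
    rcases Fin.eq_castSucc_or_eq_last a with ⟨p, rfl⟩ | rfl
    · rw [h, run_up, hp, hp, mk_f]
    · rw [h, run_up_last]
  symm
  refine Nat.card_congr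
    { toFun := fun o => o.elim (Quot.mk (fun x y => y = run (up w) x) (Fin.last (n + 1)))
        (Quot.lift (fun p => Quot.mk (fun x y => y = run (up w) x) p.castSucc) hA)
      invFun := Quot.lift (fun q => Fin.lastCases (motive := fun _ => Option
        (Quot fun x y => y = run w x)) none (fun p => some (Quot.mk _ p)) q) hB
      left_inv := ?_
      right_inv := ?_ }
  · intro o
    rcases o with _ | x
    · exact hl
    · induction x using Quot.ind with
      | mk p => exact hp p
  · intro x
    induction x using Quot.ind with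
    | mk q =>
      rcases Fin.eq_castSucc_or_eq_last q with ⟨p, rfl⟩ | rfl
      · change Option.elim (Fin.lastCases (motive := fun _ => Option
          (Quot fun x y => y = run w x)) none (fun p => some (Quot.mk _ p)) p.castSucc) _ _ = _
        rw [hp]
        rfl
      · change Option.elim (Fin.lastCases (motive := fun _ => Option
          (Quot fun x y => y = run w x)) none (fun p => some (Quot.mk _ p))
            (Fin.last (n + 1))) _ _ = _
        rw [hl]
        rfl

theorem ncl_st {n : ℕ} (w : Wd n) (b : Bool) :
    ncl (run (up w ++ [(Fin.last n, b)])) = ncl (run w) := by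
  unfold ncl
  symm
  have hl : ∀ p : Fin (n + 1), (Fin.lastCases (motive := fun _ => Fin (n + 1)) (Fin.last n)
      (fun p => p) p.castSucc) = p := fun p => Fin.lastCases_castSucc _
  have hl' : (Fin.lastCases (motive := fun _ => Fin (n + 1)) (Fin.last n)
      (fun p => p) (Fin.last (n + 1))) = Fin.last n := Fin.lastCases_last
  refine quot_card _ _ (fun p => p.castSucc)
    (fun q => Fin.lastCases (motive := fun _ => Fin (n + 1)) (Fin.last n) (fun p => p) q)
    ?_ ?_ ?_ ?_
  · intro a a' h
    have h' : a' = run w a := h
    by_cases h0 : run w a = Fin.last n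
    · have e1 : Quot.mk (fun x y => y = run (up w ++ [(Fin.last n, b)]) x) a.castSucc =
          Quot.mk _ (Fin.last (n + 1)) := Quot.sound (st_eq w b a h0).symm
      have e2 : Quot.mk (fun x y => y = run (up w ++ [(Fin.last n, b)]) x) (Fin.last (n + 1)) =
          Quot.mk _ (Fin.last n).castSucc := Quot.sound (st_last w b).symm
      rw [h', h0]
      exact e1.trans e2
    · refine Quot.sound ?_
      rw [st_ne w b a h0, h']
  · intro q q' h
    have h' : q' = run (up w ++ [(Fin.last n, b)]) q := h
    rcases Fin.eq_castSucc_or_eq_last q with ⟨p, rfl⟩ | rfl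
    · by_cases h0 : run w p = Fin.last n
      · rw [h', st_eq w b p h0]
        change Quot.mk _ (Fin.lastCases (motive := fun _ => Fin (n + 1)) (Fin.last n)
          (fun p => p) p.castSucc) = Quot.mk _ (Fin.lastCases (motive := fun _ => Fin (n + 1))
          (Fin.last n) (fun p => p) (Fin.last (n + 1)))
        rw [hl, hl']
        exact Quot.sound h0.symm
      · rw [h', st_ne w b p h0]
        change Quot.mk _ (Fin.lastCases (motive := fun _ => Fin (n + 1)) (Fin.last n)
          (fun p => p) p.castSucc) = Quot.mk _ (Fin.lastCases (motive := fun _ => Fin (n + 1))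
          (Fin.last n) (fun p => p) (run w p).castSucc)
        rw [hl, hl]
        exact Quot.sound rfl
    · rw [h', st_last w b]
      change Quot.mk _ (Fin.lastCases (motive := fun _ => Fin (n + 1)) (Fin.last n)
          (fun p => p) (Fin.last (n + 1))) = Quot.mk _ (Fin.lastCases
          (motive := fun _ => Fin (n + 1)) (Fin.last n) (fun p => p) (Fin.last n).castSucc)
      rw [hl, hl']
  · intro a
    change Quot.mk _ (Fin.lastCases (motive := fun _ => Fin (n + 1)) (Fin.last n)
          (fun p => p) a.castSucc) = _
    rw [hl]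
  · intro q
    rcases Fin.eq_castSucc_or_eq_last q with ⟨p, rfl⟩ | rfl
    · change Quot.mk _ (Fin.lastCases (motive := fun _ => Fin (n + 1)) (Fin.last n)
          (fun p => p) p.castSucc).castSucc = _
      rw [hl]
    · change Quot.mk _ (Fin.lastCases (motive := fun _ => Fin (n + 1)) (Fin.last n)
          (fun p => p) (Fin.last (n + 1))).castSucc = _
      rw [hl', ← st_last w b, mk_f]

theorem ncl_conj {n : ℕ} (u v : Wd n) : ncl (run (u ++ v)) = ncl (run (v ++ u)) := by
  unfold ncl
  refine quot_card _ _ (run u) (run v) ?_ ?_ ?_ ?_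
  · intro a a' h
    have h' : a' = run (u ++ v) a := h
    refine Quot.sound ?_
    rw [h', run_append, run_append]
  · intro a a' h
    have h' : a' = run (v ++ u) a := h
    refine Quot.sound ?_
    rw [h', run_append, run_append]
  · intro a
    rw [← run_append, mk_f]
  · intro a
    rw [← run_append, mk_f]

theorem ncl_pos {n : ℕ} (w : Wd n) : 1 ≤ ncl (run w) := by
  have : Finite (Quot fun x y => y = run w x) := Finite.of_surjective _ Quot.mk_surjective
  have : Nonempty (Quot fun x y => y = run w x) := ⟨Quot.mk _ 0⟩
  exact Nat.card_pos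

theorem ncl_knot {n : ℕ} {β : Type} (w : List (Fin n × β)) (h : Knot w) : ncl (run w) = 1 := by
  unfold ncl
  have hk : ∀ k : ℕ, Quot.mk (fun x y => y = run w x) ((run w)^[k] 0) = Quot.mk _ 0 := by
    intro k
    induction k with
    | zero => rfl
    | succ k ih =>
      rw [Function.iterate_succ_apply', mk_f, ih]
  rw [Nat.card_eq_one_iff_unique]
  refine ⟨⟨fun x y => ?_⟩, ⟨Quot.mk _ 0⟩⟩
  induction x using Quot.ind with
  | mk p =>
    induction y using Quot.ind with
    | mk q =>
      obtain ⟨k, rfl⟩ := h p
      obtain ⟨l, rfl⟩ := h q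
      rw [hk, hk]

theorem pf_NCL : Pool.Agent.H59.LIN.T_NCL :=
  ⟨fun _ w => ncl_up w, fun _ w b => ncl_st w b, fun _ u v => ncl_conj u v, fun _ w => ncl_pos w,
    fun _ _ w h => ncl_knot w h⟩

end Pool.Agent.H66.LIN
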